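import Mathlib
import Pool.Agent.W187.MW.Stm
import Pool.Agent.W976.WQ.Neg

/-! Task MW-C2: negative values of the Weil form, normalised by the energy. -/

set_option autoImplicit false

open Complex MeasureTheory Set Filter
open scoped ComplexConjugate Topology
open Pool.Agent.W187.WP Pool.Agent.W187.WQ Pool.Agent.W187.MW Pool.Agent.W8.WP Pool.Agent.W976.WQ

namespace Pool.Agent.W52.MW

section

variable {c : ℂ} {b k : ℝ → ℂ} {s δ : ℝ}

theorem deriv_supp (hbs : ∀ u, δ < |u| → b u = 0) : ∀ u, δ < |u| → deriv b u = 0 := by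
  intro u hu
  have h : b =ᶠ[𝓝 u] fun _ => 0 := by
    filter_upwards [(isOpen_lt continuous_const continuous_abs).mem_nhds hu] with v hv
      using hbs v hv
  rw [h.deriv_eq]
  exact deriv_const u 0

theorem deriv_ff (hb : ContDiff ℝ 2 b) (hk : ContDiff ℝ 2 k) :
    deriv (ff c b k s) = ff c (deriv b) (deriv k) s := by
  funext u
  have h1 : HasDerivAt (fun u => b (u + s)) (deriv b (u + s)) u :=
    ((hb.differentiable (by norm_num)) (u + s)).hasDerivAt.comp_add_const u s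
  have h2 : HasDerivAt (fun u => k (u + -s)) (deriv k (u + -s)) u :=
    ((hk.differentiable (by norm_num)) (u + -s)).hasDerivAt.comp_add_const u (-s)
  exact ((h1.const_mul c).add h2).deriv

theorem ff_sq' (hc : ‖c‖ = 1) (hδ : 0 < δ) (hb : Continuous b) (hk : Continuous k)
    (hbs : ∀ u, δ < |u| → b u = 0) (hks : ∀ u, δ < |u| → k u = 0) {E : ℝ}
    (hkb : ∀ u, ‖k u‖ ≤ E) (hs0 : 0 ≤ s) :
    (∫ u, ‖ff c b k s u‖ ^ 2) ≤ 2 * (∫ u, ‖b u‖ ^ 2) + 4 * δ * E ^ 2 := by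
  have hint_b := sq_int hb (cs_of hbs)
  have hint_k := sq_int hk (cs_of hks)
  have hffc : Continuous (ff c b k s) := by
    unfold ff
    fun_prop
  have hint_f := sq_int hffc (cs_of (fun u hu => ff_supp (c := c) hs0 hbs hks hu))
  have h1 : ∀ u, ‖ff c b k s u‖ ^ 2 ≤ 2 * ‖b (u + s)‖ ^ 2 + 2 * ‖k (u + -s)‖ ^ 2 := by
    intro u
    have h2 : ‖ff c b k s u‖ ≤ ‖b (u + s)‖ + ‖k (u + -s)‖ := by
      unfold ff
      refine (norm_add_le _ _).trans ?_
      rw [norm_mul, hc, one_mul]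
    have h3 := pow_le_pow_left₀ (norm_nonneg _) h2 2
    nlinarith [sq_nonneg (‖b (u + s)‖ - ‖k (u + -s)‖)]
  have i1 : Integrable (fun u => 2 * ‖b (u + s)‖ ^ 2) :=
    (hint_b.comp_add_right s).const_mul 2
  have i2 : Integrable (fun u => 2 * ‖k (u + -s)‖ ^ 2) :=
    (hint_k.comp_add_right (-s)).const_mul 2
  have h2 : ∫ u, ‖ff c b k s u‖ ^ 2 ≤ ∫ u, (2 * ‖b (u + s)‖ ^ 2 + 2 * ‖k (u + -s)‖ ^ 2) :=
    integral_mono hint_f (i1.add i2) h1
  rw [integral_add i1 i2, integral_const_mul, integral_const_mul] at h2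
  have h3 : ∫ u, ‖b (u + s)‖ ^ 2 = ∫ u, ‖b u‖ ^ 2 :=
    integral_add_right_eq_self (fun u : ℝ => ‖b u‖ ^ 2) s
  have h4 : ∫ u, ‖k (u + -s)‖ ^ 2 = ∫ u, ‖k u‖ ^ 2 :=
    integral_add_right_eq_self (fun u : ℝ => ‖k u‖ ^ 2) (-s)
  rw [h3, h4] at h2
  have h5 := sq_bound hδ hk hks hkb
  linarith

end

theorem neg1 : S_KK1 → S_NEG1 := by
  intro hKK
  rintro θ hθ ⟨ρ₀, hz, hθβ⟩
  have hβ1 : ρ₀.re < 1 := by
    by_contra h
    exact riemannZeta_ne_zero_of_one_le_re (not_lt.1 h) hz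
  have hρ₀ : ρ₀ ∈ Zr := ⟨hz, by linarith, hβ1⟩
  have hβ : 1 / 2 < ρ₀.re := by linarith
  set β : ℝ := ρ₀.re with hβdef
  set σ : ℝ := (1 / 2 + β) / 2 with hσdef
  have hσ : 1 / 2 < σ := by rw [hσdef]; linarith
  have hσ1 : σ < 1 := by rw [hσdef]; linarith
  set η : ℝ := (β - θ) / 16 with hηdef
  have hη : 0 < η := by rw [hηdef]; linarith
  obtain ⟨b, hb, hbs, hb1, u0, hu0⟩ := bump_at (1 / 2 - conj ρ₀) (show (0 : ℝ) < 1 / 8 by norm_num)
  obtain ⟨CB, hCB, hbd⟩ := lap_decay hb (cs_of hbs) (1 / 2)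
  set M : ℝ := ∑' ρ : Zr, (mult ρ : ℝ) / (1 + (ρ : ℂ).im ^ 2) with hM
  have hM0 : 0 ≤ M := tsum_nonneg fun ρ => by positivity
  set Nb : ℝ := (∫ u, ‖b u‖ ^ 2) + ∫ u, ‖deriv b u‖ ^ 2 with hNb
  have hNb0 : 0 ≤ Nb := add_nonneg (integral_nonneg fun u => sq_nonneg _)
    (integral_nonneg fun u => sq_nonneg _)
  set C6 : ℝ := (CB ^ 2 + 1 + 4 * CB) * M + (2 * Nb + 1) with hC6
  have hC60 : 0 ≤ C6 := by positivity
  have t1 : Tendsto (fun L : ℝ => Real.exp (η * L)) atTop atTop :=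
    Real.tendsto_exp_atTop.comp (tendsto_id.const_mul_atTop hη)
  have e1 := t1.eventually_ge_atTop (C6 * Real.exp ((β - 1 / 2) / 4))
  filter_upwards [hKK ρ₀ σ (1 / 8) η hρ₀ hσ hσ1 (by norm_num) hη, e1, eventually_gt_atTop 1]
    with L hk hL1 hL
  obtain ⟨k, hkc, hks, hkb, hkb1, hk1, hk2, hk3⟩ := hk
  set s : ℝ := L / 2 - 1 / 8 with hs
  set E1 : ℝ := Real.exp (η * L) with hE1
  have hE10 : 0 < E1 := Real.exp_pos _
  set G2 : ℝ := Real.exp (-(L / 2)) + Real.exp ((σ - 1 / 2) * L + η * L) with hG2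
  have hG20 : 0 < G2 := by positivity
  have hoff := off_main (ρ₀ := ρ₀) (δ := 1 / 8) (L := L) hσ (by norm_num) (by linarith) hk2 hk3
  rw [← hs, ← hG2] at hoff
  obtain ⟨c, hc, hW⟩ := weil_le hρ₀ hβ hCB hE10 hG20 hb hkc hbs hks hbd hk2 hoff
  refine ⟨ff c b k s, ff_cont hb hkc, ?_, ff_pos hc hb hkc hbs hks (by rw [hs]; linarith)
    (by norm_num) hu0, ?_⟩
  · intro u hu
    refine ff_supp (by rw [hs]; linarith) hbs hks ?_
    rw [hs]
    linarith
  · intro W hWW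
    have h1 := hW W hWW
    rw [← hM, hb1, norm_one, mul_one] at h1
    have h2 : en (ff c b k s) ≤ 2 * Nb + E1 ^ 2 := by
      have g1 := ff_sq (c := c) (s := s) hc (by norm_num) hb hkc hbs hks hkb
        (by rw [hs]; linarith)
      have g2 := ff_sq' (c := c) (s := s) hc (by norm_num) (hb.continuous_deriv (by norm_num))
        (hkc.continuous_deriv (by norm_num)) (deriv_supp hbs) (deriv_supp hks) hkb1
        (by rw [hs]; linarith)
      unfold en
      rw [deriv_ff hb hkc, hNb]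
      linarith
    -- all exponents
    set F : ℝ := Real.exp ((β - 1 / 2 - 2 * η) * L) with hF
    have hF0 : 0 < F := Real.exp_pos _
    have hL0 : 0 < L := by linarith
    have x1 : 1 ≤ F := by
      rw [hF]
      apply Real.one_le_exp
      apply mul_nonneg _ hL0.le
      rw [hηdef]
      linarith
    have x2 : E1 ^ 2 ≤ F := by
      rw [hE1, hF, ← Real.exp_nat_mul]
      apply Real.exp_le_exp.2
      push_cast
      have : 2 * η ≤ β - 1 / 2 - 2 * η := by rw [hηdef]; linarith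
      nlinarith
    have x3 : Real.exp (-(L / 2)) ≤ F := by
      refine le_trans (Real.exp_le_one_iff.2 (by linarith)) x1
    have x4 : Real.exp ((σ - 1 / 2) * L + η * L) ≤ F := by
      rw [hF]
      apply Real.exp_le_exp.2
      have : σ - 1 / 2 + η ≤ β - 1 / 2 - 2 * η := by rw [hσdef, hηdef]; linarith
      nlinarith
    have x5 : Real.exp ((θ - 1 / 2) * L) * E1 ^ 2 ≤ F := by
      rw [hE1, hF, ← Real.exp_nat_mul, ← Real.exp_add]
      apply Real.exp_le_exp.2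
      push_cast
      have : θ - 1 / 2 + 2 * η ≤ β - 1 / 2 - 2 * η := by rw [hηdef]; linarith
      nlinarith
    have x6 : Real.exp ((θ - 1 / 2) * L) ≤ F := by
      rw [hF]
      apply Real.exp_le_exp.2
      have : θ - 1 / 2 ≤ β - 1 / 2 - 2 * η := by rw [hηdef]; linarith
      nlinarith
    have y1 : (CB ^ 2 + E1 ^ 2 + 2 * (CB * G2)) * M ≤ ((CB ^ 2 + 1 + 4 * CB) * M) * F := by
      have z1 : CB ^ 2 ≤ CB ^ 2 * F := le_mul_of_one_le_right (sq_nonneg _) x1
      have z2 : CB * G2 ≤ CB * (2 * F) := by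
        apply mul_le_mul_of_nonneg_left _ hCB.le
        rw [hG2]
        linarith
      have z3 : CB ^ 2 + E1 ^ 2 + 2 * (CB * G2) ≤ (CB ^ 2 + 1 + 4 * CB) * F := by linarith
      calc _ ≤ (CB ^ 2 + 1 + 4 * CB) * F * M := mul_le_mul_of_nonneg_right z3 hM0
        _ = _ := by ring
    have y2 : Real.exp ((θ - 1 / 2) * L) * en (ff c b k s) ≤ (2 * Nb + 1) * F := by
      have z1 : Real.exp ((θ - 1 / 2) * L) * en (ff c b k s) ≤
          Real.exp ((θ - 1 / 2) * L) * (2 * Nb + E1 ^ 2) :=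
        mul_le_mul_of_nonneg_left h2 (Real.exp_pos _).le
      have z2 : Real.exp ((θ - 1 / 2) * L) * (2 * Nb) ≤ F * (2 * Nb) :=
        mul_le_mul_of_nonneg_right x6 (by positivity)
      have z3 : Real.exp ((θ - 1 / 2) * L) * (2 * Nb + E1 ^ 2) =
          Real.exp ((θ - 1 / 2) * L) * (2 * Nb) +
            Real.exp ((θ - 1 / 2) * L) * E1 ^ 2 := by ring
      linarith
    have y3 : C6 * F ≤ Real.exp ((β - 1 / 2) * (2 * s)) * ‖lap k (ρ₀ - 1 / 2)‖ := by
      have z1 : Real.exp ((β - 1 / 2) * (2 * s)) * Real.exp (-(η * L)) ≤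
          Real.exp ((β - 1 / 2) * (2 * s)) * ‖lap k (ρ₀ - 1 / 2)‖ :=
        mul_le_mul_of_nonneg_left hk1 (Real.exp_pos _).le
      refine le_trans ?_ z1
      have z2 : Real.exp ((β - 1 / 2) * (2 * s)) * Real.exp (-(η * L)) =
          Real.exp (-((β - 1 / 2) / 4)) * (E1 * F) := by
        rw [hE1, hF, ← Real.exp_add, ← Real.exp_add, ← Real.exp_add]
        congr 1
        rw [hs]
        ring
      rw [z2, ← mul_assoc]
      apply mul_le_mul_of_nonneg_right _ hF0.le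
      have z3 : Real.exp (-((β - 1 / 2) / 4)) * (C6 * Real.exp ((β - 1 / 2) / 4)) ≤
          Real.exp (-((β - 1 / 2) / 4)) * E1 :=
        mul_le_mul_of_nonneg_left hL1 (Real.exp_pos _).le
      have z4 : Real.exp (-((β - 1 / 2) / 4)) * (C6 * Real.exp ((β - 1 / 2) / 4)) = C6 := by
        have : Real.exp (-((β - 1 / 2) / 4)) * Real.exp ((β - 1 / 2) / 4) = 1 := by
          rw [← Real.exp_add]
          simp
        calc _ = C6 * (Real.exp (-((β - 1 / 2) / 4)) * Real.exp ((β - 1 / 2) / 4)) := by ring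
          _ = C6 := by rw [this, mul_one]
      linarith
    have y4 : C6 * F = ((CB ^ 2 + 1 + 4 * CB) * M) * F + (2 * Nb + 1) * F := by
      rw [hC6]
      ring
    have h1' : W ≤ (CB ^ 2 + E1 ^ 2 + 2 * (CB * G2)) * M -
        Real.exp ((β - 1 / 2) * (2 * s)) * ‖lap k (ρ₀ - 1 / 2)‖ := h1
    rw [neg_mul]
    linarith

end Pool.Agent.W52.MW
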